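import Pool.Agent.H.MP_eefa83_lc.B

namespace Pool.Agent.Results.MP_eefa83_lc.No

open FirstOrder Language Cardinal MeasureTheory Filter Topology ENNReal Set

variable (L : FirstOrder.Language.{0, 0})

/-- Interpretations of the two-sorted language of randomizations. -/
structure Str where
  K : Type
  B : Type
  br : ∀ {n}, L.Formula (Fin n) → (Fin n → K) → B
  top : B
  neg : B → B
  inf : B → B → B
  mu : B → ℝ≥0∞

/-- Terms of the event sort. -/
inductive Tm (κ β : Type) : Type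
  | var : β → Tm κ β
  | br {n} : L.Formula (Fin n) → (Fin n → κ) → Tm κ β
  | top : Tm κ β
  | neg : Tm κ β → Tm κ β
  | inf : Tm κ β → Tm κ β → Tm κ β

/-- Continuous formulas: parameters `α`, `β`; `m`, `n` variables of the two sorts. -/
inductive Fml (α β : Type) : ℕ → ℕ → Type
  | mu {m n} : Tm L (α ⊕ Fin m) (β ⊕ Fin n) → Fml α β m n
  | one {m n} : Fml α β m n
  | half {m n} : Fml α β m n → Fml α β m n
  | sub {m n} : Fml α β m n → Fml α β m n → Fml α β m n
  | supK {m n} : Fml α β (m + 1) n → Fml α β m n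
  | supB {m n} : Fml α β m (n + 1) → Fml α β m n

variable {L} {α β : Type} (N : Str L)

def Tm.ev (u : α → N.K) (e : β → N.B) : Tm L α β → N.B
  | var b => e b
  | br φ v => N.br φ (u ∘ v)
  | top => N.top
  | neg s => N.neg (s.ev u e)
  | inf s t => N.inf (s.ev u e) (t.ev u e)

noncomputable def Fml.ev (u : α → N.K) (e : β → N.B) :
    ∀ {m n}, (Fin m → N.K) × (Fin n → N.B) → Fml L α β m n → ℝ≥0∞
  | _, _, x, mu t => N.mu (t.ev N (Sum.elim u x.1) (Sum.elim e x.2))
  | _, _, _, one => 1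
  | _, _, x, half φ => φ.ev u e x / 2
  | _, _, x, sub φ ψ => φ.ev u e x - ψ.ev u e x
  | _, _, x, supK φ => ⨆ a, φ.ev u e (Fin.snoc x.1 a, x.2)
  | _, _, x, supB φ => ⨆ a, φ.ev u e (x.1, Fin.snoc x.2 a)

def Str.dK (x y : N.K) := N.mu (N.neg (N.br ((Term.var 0).equal (.var 1)) ![x, y]))

def Str.dB (x y : N.B) := N.mu (N.neg (N.inf (N.neg (N.inf x (N.neg y))) (N.neg (N.inf y (N.neg x)))))

/-- `d` separates points and is complete. -/
def Cpl (d : α → α → ℝ≥0∞) : Prop := (∀ x y, d x y = 0 → x = y) ∧ ∀ u : ℕ → α,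
  (∀ ε > 0, ∃ k, ∀ m ≥ k, ∀ n ≥ k, d (u m) (u n) < ε) → ∃ x, Tendsto (fun n => d (u n) x) atTop (𝓝 0)

/-- Density character at most `l`. -/
def Small (d : α → α → ℝ≥0∞) (A : Set α) (l : Cardinal) : Prop :=
  ∃ D ⊆ A, #D ≤ l ∧ ∀ a ∈ A, ∀ ε > 0, ∃ b ∈ D, d a b < ε

section
variable {Ω X Y : Type} [MeasurableSpace Ω] {μ : Measure Ω} [TopologicalSpace X] [DiscreteTopology X]
  [TopologicalSpace Y]

/-- Pointwise operation on classes of countably valued measurable maps. -/
noncomputable def op {n} (g : (Fin n → X) → Y) (f : Fin n → Ω →ₘ[μ] X) : Ω →ₘ[μ] Y :=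
  .mk (fun ω => g fun i => f i ω) (H.MP_eefa83_lc.sm f g).aestronglyMeasurable

open Classical in
/-- The randomization of `M` over `(Ω, μ)`. -/
noncomputable def rand (M : Type) [L.Structure M] (μ : Measure Ω) : Str L where
  K := Ω →ₘ[μ] WithDiscreteTopology M
  B := Ω →ₘ[μ] Bool
  br φ := op fun x => decide (φ.Realize fun i => (x i).ofTopology)
  top := .const _ true
  neg E := op (fun x => !x 0) ![E]
  inf E F := op (fun x => x 0 && x 1) ![E, F]
  mu E := μ {ω | E ω = true}

end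

def IsModel (T : L.Theory) : Prop := Cpl N.dK ∧ Cpl N.dB ∧ ∃ (M : T.ModelType.{0, 0, 0}) (Ω : Type)
  (_ : MeasurableSpace Ω) (μ : Measure Ω), IsProbabilityMeasure μ ∧
  (∀ s, MeasurableSet s → 0 < μ s → ∃ t ⊆ s, MeasurableSet t ∧ 0 < μ t ∧ μ t < μ s) ∧
  ∀ σ : Fml L Empty Empty 0 0, σ.ev N nofun nofun default = σ.ev (rand M μ) nofun nofun default

/-- The metric on types over `A ∪ B`: infimum over realizations in elementary extensions. -/
noncomputable def dT {A : Set N.K} {B : Set N.B} {m n : ℕ} (p q : Fml L A B m n → ℝ≥0∞) : ℝ≥0∞ :=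
  ⨅ (N' : Str L) (_ : Cpl N'.dK ∧ Cpl N'.dB) (j : N.K → N'.K) (k : N.B → N'.B)
    (_ : ∀ φ : Fml L N.K N.B 0 0, φ.ev N' j k default = φ.ev N id id default)
    (a) (b) (_ : Fml.ev N' (j ∘ (↑)) (k ∘ (↑)) a = p) (_ : Fml.ev N' (j ∘ (↑)) (k ∘ (↑)) b = q),
    (⨆ i, N'.dK (a.1 i) (b.1 i)) ⊔ ⨆ i, N'.dB (a.2 i) (b.2 i)

def StableR (T : L.Theory) (l : Cardinal) : Prop := ∀ N : Str L, IsModel N T → ∀ A B, Small N.dK A l →
  Small N.dB B l → ∀ m n, Small (dT N) (closure (range (Fml.ev N (↑) (↑) : _ → Fml L A B m n → _))) l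

def Stable (T : L.Theory) (l : Cardinal) : Prop := ∀ (M : T.ModelType.{0, 0, 0}) (A : Set M), #A ≤ l →
  ∀ n : ℕ, #((L[[A]].completeTheory M).CompleteType (Fin n)) ≤ l

section
variable {Ω X Y : Type} [MeasurableSpace Ω] {μ : Measure Ω} [TopologicalSpace X] [DiscreteTopology X]
  [TopologicalSpace Y]

lemma cop {n} (g : (Fin n → X) → Y) (f : Fin n → Ω →ₘ[μ] X) : ∀ᵐ ω ∂μ, op g f ω = g fun i => f i ω :=
  AEEqFun.coeFn_mk _ _

variable {M : Type} [L.Structure M]

lemma cn (E : (rand (L := L) M μ).B) : ∀ᵐ ω ∂μ, ((rand M μ).neg E).cast ω = !E.cast ω :=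
  cop (fun x => !x 0) ![E]

lemma ci (E F : (rand (L := L) M μ).B) : ∀ᵐ ω ∂μ, ((rand M μ).inf E F).cast ω = (E.cast ω && F.cast ω) :=
  cop (fun x => x 0 && x 1) ![E, F]

lemma cb {n : ℕ} (θ : L.Formula (Fin n)) (x : Fin n → (rand (L := L) M μ).K) : ∀ᵐ ω ∂μ,
    ((rand M μ).br θ x).cast ω = true ↔ θ.Realize fun i => ((x i).cast ω).ofTopology := by
  classical
  filter_upwards [cop (fun x => decide (θ.Realize fun i => (x i).ofTopology)) x] with ω a
  exact (congrArg (· = true) a).to_iff.trans decide_eq_true_iff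

lemma dK (f g : (rand (L := L) M μ).K) : (rand M μ).dK f g = μ {ω | f.cast ω ≠ g.cast ω} := measure_congr (by
  filter_upwards [cn ((rand M μ).br ((Term.var 0).equal (.var 1)) ![f, g]),
    cb ((Term.var 0).equal (.var 1)) ![f, g] ] with ω a b
  exact propext ((congrArg (· = true) a).to_iff.trans ((Bool.not_eq_true' _).to_iff.trans
    (Bool.eq_false_iff.trans (b.trans WithTopology.ext_iff.symm).not))))

lemma dB (f g : (rand (L := L) M μ).B) : (rand M μ).dB f g = μ {ω | f.cast ω ≠ g.cast ω} := measure_congr (by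
  filter_upwards [cn ((rand M μ).inf ((rand M μ).neg ((rand M μ).inf f ((rand M μ).neg g))) ((rand M μ).neg
    ((rand M μ).inf g ((rand M μ).neg f)))), ci ((rand M μ).neg ((rand M μ).inf f ((rand M μ).neg g)))
    ((rand M μ).neg ((rand M μ).inf g ((rand M μ).neg f))), cn ((rand M μ).inf f ((rand M μ).neg g)),
    cn ((rand M μ).inf g ((rand M μ).neg f)), ci f ((rand M μ).neg g), ci g ((rand M μ).neg f), cn f, cn g]
    with ω a b c d e f' g' h
  refine propext ((congrArg (· = true) a).to_iff.trans ?_)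
  rw [b, c, d, e, f', g', h]
  change _ ↔ f.cast ω ≠ g.cast ω
  cases f.cast ω <;> cases g.cast ω <;> simp)

lemma mi (F : (rand (L := L) M μ).B) (θ : L.Formula (Fin 1)) (x : Fin 1 → (rand (L := L) M μ).K) :
    (rand M μ).mu ((rand M μ).inf F ((rand M μ).br θ x)) =
      μ {ω | F.cast ω = true ∧ θ.Realize fun i => ((x i).cast ω).ofTopology} := measure_congr (by
  filter_upwards [ci F ((rand M μ).br θ x), cb θ x] with ω a b
  exact propext ((congrArg (· = true) a).to_iff.trans (Bool.and_eq_true_iff.trans (and_congr_right' b))))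

end

open Pool.Agent.H.MP_eefa83_lc

theorem result : ∃ (L : FirstOrder.Language.{0, 0}) (T : L.Theory) (l : Cardinal), L.card ≤ ℵ₀ ∧ T.IsComplete ∧
    ℵ₀ ≤ l ∧ Stable T l ∧ ¬ StableR T l := by
  classical
  obtain ⟨l, l1, l2⟩ := H.MP_eefa83_lc.card
  have l0 : ℵ₀ ≤ l := (cantor _).le.trans l1
  refine ⟨Lu, Lu.completeTheory (ℕ → Bool), l, mk_le_aleph0_iff.2 ?_, completeTheory.isComplete _ _, l0,
    fun M A hA n => fo A n l1 hA, fun h => ?_⟩
  · exact (inferInstance : Countable ((Σ _ : ℕ, Empty) ⊕ Σ n : ℕ, {_k : ℕ // n = 1}))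
  haveI : Infinite l.out := infinite_iff.2 ((mk_out l).symm ▸ l0)
  let N := rand (L := Lu) (ℕ → Bool) (coin l.out)
  have ms : ∀ (a : l.out) (c : Bool), StronglyMeasurable fun ω : l.out → Bool => ω a == c := fun a c =>
    ((measurable_of_finite (· == c)).comp (measurable_pi_apply a)).stronglyMeasurable
  let e : l.out × Bool → N.B := fun a => .mk _ (ms a.1 a.2).aestronglyMeasurable
  obtain ⟨D, D1, D2, D3⟩ := h N ⟨cpl dK, cpl dB, .of _ (ℕ → Bool), _, _, coin l.out, inferInstance, atomless,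
    fun _ => rfl⟩ ∅ (range e) ⟨∅, by simp⟩ ⟨_, subset_rfl, mk_range_le.trans (by
      simpa using mul_le_of_le l0 le_rfl (natCast_lt_aleph0.le.trans l0 : (2 : ℕ) ≤ l)),
      fun a ha ε ε0 => ⟨a, ha, by simpa [N, dB] using ε0⟩⟩ 1 0
  let θ : ℕ → Bool → Lu.Formula (Fin 1) := fun n c =>
    cond c (∼((P n).formula₁ (.var 0))) ((P n).formula₁ (.var 0))
  let φ : ℕ → l.out → Bool → Fml Lu (∅ : Set N.K) (range e) 1 0 := fun n a c =>
    .mu (.inf (.var (.inl ⟨_, mem_range_self (a, c)⟩)) (.br (θ n c) fun _ => .inr 0))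
  have v : ∀ n a c x, (φ n a c).ev N (↑) (↑) x =
      coin l.out {ω | ω a = c ∧ ((x.1 0).cast ω).ofTopology n ≠ c} := fun n a c x =>
    (mi _ _ _).trans (measure_congr (by
      filter_upwards [AEEqFun.coeFn_mk _ (ms a c).aestronglyMeasurable] with ω k
      refine propext (and_congr (k ▸ beq_iff_eq) ?_)
      cases c
      · exact (cf _ _ _).trans Bool.ne_false_iff.symm
      · exact Formula.realize_not.trans (cf _ _ _).not))
  have mx : ∀ (s : ℕ → l.out) (m : ℕ), StronglyMeasurable fun ω : l.out → Bool =>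
      WithTopology.toTopology ⊥ fun k => if k < m then ω (s k) else false := fun s m =>
    (continuous_of_discreteTopology (f := fun w : Fin m → Bool => WithTopology.toTopology ⊥ fun k =>
      if h : k < m then w ⟨k, h⟩ else false)).comp_stronglyMeasurable 
        (f := fun (ω : l.out → Bool) (k : Fin m) => ω (s k))
        (measurable_pi_lambda _ fun k : Fin m => measurable_pi_apply (s k)).stronglyMeasurable
  choose p hp using fun s : ℕ → l.out => exists_clusterPt_of_compactSpace (map (fun m =>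
    (Fml.ev N (↑) (↑) (fun _ => .mk _ (mx s m).aestronglyMeasurable, nofun) :
      Fml Lu (∅ : Set N.K) (range e) 1 0 → _)) atTop)
  choose q q1 q2 using fun s => D3 (p s) (isClosed_closure.mem_of_mapClusterPt (hp s) (.of_forall fun _ =>
    subset_closure (mem_range_self _))) 8⁻¹ (by simp)
  have p0 : ∀ s n c, p s (φ n (s n) c) = 0 := fun s n c =>
    (isClosed_eq (continuous_apply _) continuous_const).mem_of_mapClusterPt (hp s) (by
      filter_upwards [eventually_gt_atTop n] with m hm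
      refine (v _ _ _ _).trans (measure_eq_zero_iff_ae_notMem.2 ?_)
      filter_upwards [AEEqFun.coeFn_mk _ (mx s m).aestronglyMeasurable] with ω k ⟨a, b⟩
      exact b ((congrArg (·.ofTopology n) k).trans ((if_pos hm).trans a)))
  have q3 : ∀ s n c, q s (φ n (s n) c) < 8⁻¹ := fun s n c => by
    have := q2 s
    simp only [dT, iInf_lt_iff] at this
    obtain ⟨N', -, j, k, el, a, b, h1, h2, h3⟩ := this
    have z := (el (.supK (.supK (.sub (.sub (.mu (.inf (.var (.inl (e (s n, c)))) (.br (θ n c) fun _ => .inr 1)))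
      (.mu (.inf (.var (.inl (e (s n, c)))) (.br (θ n c) fun _ => .inr 0)))) (.mu (.neg (.br
        ((Term.var 0).equal (.var 1)) ![.inr 0, .inr 1]))))))).trans_le (iSup₂_le fun x y => (show
          N.mu (N.inf _ (N.br _ fun _ => y)) - N.mu (N.inf _ (N.br _ fun _ => x)) - _ ≤ 0 by
      rw [tsub_tsub, tsub_le_iff_left, add_zero, mi, mi]
      refine le_trans ?_ (add_le_add le_rfl ((dK x y).symm.trans_le (le_of_eq (congrArg (fun u => N.mu (N.neg
        (N.br _ u))) (funext fun i => by fin_cases i <;> rfl)))))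
      refine le_trans (measure_mono fun ω k => ?_) (measure_union_le _ _)
      exact (em _).imp (fun t : x.cast ω = y.cast ω => ⟨k.1, by simpa only [t] using k.2⟩) id))
    have z' : N'.mu (N'.inf _ (N'.br _ fun _ => b.1 0)) - N'.mu (N'.inf _ (N'.br _ fun _ => a.1 0)) - _ ≤ 0 :=
      (le_iSup₂_of_le (a.1 0) (b.1 0) le_rfl).trans z
    rw [tsub_tsub, tsub_le_iff_left, add_zero] at z'
    refine h2 ▸ (z'.trans ((add_le_add ((congrFun h1 (φ n (s n) c)).trans (p0 s n c)).le le_rfl).trans_eq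
      (zero_add _))).trans_lt (lt_of_le_of_lt (le_sup_of_le_left (le_iSup_of_le 0 (le_of_eq ?_))) h3)
    exact congrArg (fun u => N'.mu (N'.neg (N'.br _ u))) (funext fun i => by fin_cases i <;> rfl)
  refine (mk_le_of_injective (f := fun s => (⟨q s, q1 s⟩ : D)) fun s t k => funext fun n =>
    by_contra fun z => ?_).not_gt (D2.trans_lt (by simpa using l2))
  have a : 2⁻¹ ^ 2 ≤ q s (φ n (s n) true) + q s (φ n (t n) false) := closure_minimal (t := {r : _ → ℝ≥0∞ |
    2⁻¹ ^ 2 ≤ r (φ n (s n) true) + r (φ n (t n) false)}) (by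
      rintro _ ⟨x, rfl⟩
      rw [mem_ofPred_eq, v, v, ← Finset.card_pair z, ← cyl _ fun i => i = s n]
      refine le_trans (measure_mono fun ω k => ?_) (measure_union_le _ _)
      have k1 := k (s n) (by simp)
      have k2 := k (t n) (by simp)
      cases u : ((x.1 0).cast ω).ofTopology n
      · exact .inl ⟨k1.trans (decide_eq_true rfl), by simp [u]⟩
      · exact .inr ⟨k2.trans (decide_eq_false (Ne.symm z)), by simp [u]⟩)
    (isClosed_le continuous_const (by fun_prop)) (D1 (q1 s))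
  refine a.not_gt ((ENNReal.add_lt_add (q3 s n true) ((congrFun (congrArg Subtype.val k) _).trans_lt
    (q3 t n false))).trans_eq ?_)
  rw [← ENNReal.toReal_eq_toReal_iff' (by simp) (by simp), ENNReal.toReal_add (by simp) (by simp)]
  norm_num

end Pool.Agent.Results.MP_eefa83_lc.No
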